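import Pool.Agent.helper78.WB.SpecIII

/-!
# Project wb, row DUAL
-/

set_option autoImplicit false

namespace Pool.Agent.WB

open MvPolynomial

/-- Choosing a dual family among functionals without a common zero. -/
theorem DUAL_abs {K V ι : Type} [Field K] [AddCommGroup V] [Module K V] [FiniteDimensional K V]
    [DecidableEq ι] (Z : Finset ι) (ev : ι → Module.Dual K V)
    (h : ∀ v : V, (∀ i ∈ Z, ev i v = 0) → v = 0) :
    ∃ Z' : Finset ι, Z' ⊆ Z ∧ Z'.card = Module.finrank K V ∧ ∃ L : ι → V, ∀ i ∈ Z',
      ev i (L i) = 1 ∧ ∀ j ∈ Z', j ≠ i → ev j (L i) = 0 := by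
  classical
  let w : {i // i ∈ Z} → Module.Dual K V := fun i => ev i.1
  have hspan : Submodule.span K (Set.range w) = ⊤ := by
    have hco : (Submodule.span K (Set.range w)).dualCoannihilator = ⊥ := by
      rw [eq_bot_iff]
      intro x hx
      rw [Submodule.mem_dualCoannihilator] at hx
      rw [Submodule.mem_bot]
      exact h x fun i hi => hx (w ⟨i, hi⟩) (Submodule.subset_span ⟨⟨i, hi⟩, rfl⟩)
    rw [← Subspace.dualCoannihilator_dualAnnihilator_eq (W := Submodule.span K (Set.range w)), hco]
    exact Submodule.dualAnnihilator_bot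
  obtain ⟨κ, a, ha, hsp, hli⟩ := exists_linearIndependent' K w
  have : Finite κ := Finite.of_injective a ha
  have : Fintype κ := Fintype.ofFinite κ
  let b : Module.Basis κ K (Module.Dual K V) :=
    Module.Basis.mk hli (by rw [hsp, hspan])
  have hb : ∀ j, b j = w (a j) := fun j => by simp [b]
  have hcard : Fintype.card κ = Module.finrank K V := by
    rw [← Module.finrank_eq_card_basis b, Subspace.dual_finrank_eq]
  let x : κ → V := fun i => (Module.evalEquiv K V).symm (b.dualBasis i)
  have hx : ∀ i j, w (a j) (x i) = if j = i then 1 else 0 := by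
    intro i j
    have h1 : (Module.evalEquiv K V (x i)) (b j) = b.dualBasis i (b j) := by
      simp only [x, LinearEquiv.apply_symm_apply]
    rw [Module.evalEquiv_apply, Module.Dual.eval_apply] at h1
    rw [← hb, h1]
    rw [Module.Basis.dualBasis_apply_self]
  let g : κ → ι := fun i => (a i).1
  have hg : Function.Injective g := fun i j hij => ha (Subtype.ext hij)
  refine ⟨Finset.univ.image g, ?_, ?_, fun i => if hi : ∃ j, g j = i then x hi.choose else 0, ?_⟩
  · intro i hi
    rw [Finset.mem_image] at hi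
    obtain ⟨j, -, rfl⟩ := hi
    exact (a j).2
  · rw [Finset.card_image_of_injective _ hg, Finset.card_univ, hcard]
  · intro i hi
    rw [Finset.mem_image] at hi
    obtain ⟨j, -, rfl⟩ := hi
    have hex : ∃ j', g j' = g j := ⟨j, rfl⟩
    have hch : hex.choose = j := hg hex.choose_spec
    have hval : (if hi : ∃ j', g j' = g j then x hi.choose else 0) = x j := by
      rw [dif_pos hex, hch]
    beta_reduce
    rw [hval]
    refine ⟨?_, ?_⟩
    · have := hx j j
      rw [if_pos rfl] at this
      exact this
    · intro i' hi' hne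
      rw [Finset.mem_image] at hi'
      obtain ⟨j', -, rfl⟩ := hi'
      have := hx j j'
      rw [if_neg (fun hjj => hne (by rw [hjj]))] at this
      exact this

theorem DUAL (h1 : DIM3_stmt) : DUAL_stmt := by
  classical
  intro K _ k Z hZ
  obtain ⟨hfin, -, hrk⟩ := h1.2 K k
  have : FiniteDimensional K (homogeneousSubmodule (Fin 3) K k) := hfin
  let ev : (Fin 3 → K) → Module.Dual K (homogeneousSubmodule (Fin 3) K k) := fun ζ =>
    { toFun := fun f => eval ζ f.1
      map_add' := fun f g => by
        rw [Submodule.coe_add, map_add]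
      map_smul' := fun c f => by
        rw [Submodule.coe_smul, smul_eval, RingHom.id_apply, smul_eq_mul] }
  have hev : ∀ (ζ : Fin 3 → K) (f : homogeneousSubmodule (Fin 3) K k), ev ζ f = eval ζ f.1 :=
    fun ζ f => rfl
  obtain ⟨Z', hsub, hcard, L, hL⟩ := DUAL_abs Z ev (fun v hv => by
    apply Subtype.ext
    exact hZ v.1 ((mem_homogeneousSubmodule k v.1).1 v.2) fun ζ hζ => by rw [← hev]; exact hv ζ hζ)
  refine ⟨Z', hsub, by rw [hcard, hrk], fun ζ => (L ζ).1, ?_⟩
  intro ζ hζ
  refine ⟨(mem_homogeneousSubmodule k _).1 (L ζ).2, ?_, ?_⟩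
  · rw [← hev]; exact (hL ζ hζ).1
  · intro η hη hne
    rw [← hev]; exact (hL ζ hζ).2 η hη hne

end Pool.Agent.WB
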