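import Pool.Agent.helper79.WB.SpecII

/-!
# Project wb, row FACT
-/

set_option autoImplicit false

namespace Pool.Agent.WB

open MvPolynomial

theorem FACT_tdprod (M : Multiset (MvPolynomial (Fin 3) ℤ)) (hM : ∀ p ∈ M, p ≠ 0) :
    M.prod.totalDegree = (M.map fun p => p.totalDegree).sum := by
  induction M using Multiset.induction_on with
  | empty => simp
  | cons a s ih =>
    have h1 : ∀ p ∈ s, p ≠ 0 := fun p hp => hM p (Multiset.mem_cons_of_mem hp)
    have h2 : s.prod ≠ 0 := by
      rw [Ne, Multiset.prod_eq_zero_iff]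
      exact fun h => h1 0 h rfl
    rw [Multiset.prod_cons, Multiset.map_cons, Multiset.sum_cons,
      totalDegree_mul_of_isDomain (hM a (Multiset.mem_cons_self a s)) h2, ih h1]

theorem FACT_sum (M : Multiset (MvPolynomial (Fin 3) ℤ))
    (S : Finset (MvPolynomial (Fin 3) ℤ)) (hS : ∀ p ∈ S, p ∈ M) :
    ∑ p ∈ S, p.totalDegree ≤ (M.map fun p => p.totalDegree).sum := by
  classical
  rw [Finset.sum_multiset_map_count]
  calc ∑ p ∈ S, p.totalDegree ≤ ∑ p ∈ M.toFinset, p.totalDegree :=
        Finset.sum_le_sum_of_subset fun p hp => Multiset.mem_toFinset.2 (hS p hp)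
    _ ≤ ∑ p ∈ M.toFinset, M.count p • p.totalDegree := by
        refine Finset.sum_le_sum fun p hp => ?_
        have h1 : 1 ≤ M.count p := Multiset.one_le_count_iff_mem.2 (Multiset.mem_toFinset.1 hp)
        rw [smul_eq_mul]
        exact Nat.le_mul_of_pos_left _ h1

theorem FACT (h1 : HF_stmt) : FACT_stmt := by
  classical
  intro G D hG0 hG
  set M := UniqueFactorizationMonoid.factors G with hMdef
  have hirr : ∀ p ∈ M, Irreducible p := fun p hp =>
    UniqueFactorizationMonoid.irreducible_of_factor p hp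
  have hass : Associated M.prod G := UniqueFactorizationMonoid.factors_prod hG0
  have hdvd : ∀ p ∈ M, p ∣ G := fun p hp => UniqueFactorizationMonoid.dvd_of_mem_factors hp
  refine ⟨M.toFinset.filter fun p => 1 ≤ p.totalDegree, ?_, ?_, ?_⟩
  · intro p hp
    rw [Finset.mem_filter, Multiset.mem_toFinset] at hp
    refine ⟨hirr p hp.1, ?_, hp.2, hdvd p hp.1⟩
    obtain ⟨q, hq⟩ := hdvd p hp.1
    exact (h1 p q D (hq ▸ hG) (hq ▸ hG0)).1
  · have h2 := FACT_sum M (M.toFinset.filter fun p => 1 ≤ p.totalDegree) (fun p hp => by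
      rw [Finset.mem_filter, Multiset.mem_toFinset] at hp
      exact hp.1)
    rw [← FACT_tdprod M fun p hp => (hirr p hp).ne_zero] at h2
    refine h2.trans ?_
    obtain ⟨u, hu⟩ := hass
    have hP : M.prod ≠ 0 := fun h => hG0 (by rw [← hu, h, zero_mul])
    have h3 : (M.prod * (u : MvPolynomial (Fin 3) ℤ)).totalDegree = D := by
      rw [hu]
      exact hG.totalDegree hG0
    rw [totalDegree_mul_of_isDomain hP u.ne_zero] at h3
    omega
  · intro v hv
    have h2 : eval v M.prod = 0 := by
      have h3 : eval v G ∣ eval v M.prod := map_dvd (eval v) hass.symm.dvd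
      rw [hv] at h3
      exact zero_dvd_iff.1 h3
    rw [map_multiset_prod, Multiset.prod_eq_zero_iff, Multiset.mem_map] at h2
    obtain ⟨p, hp, hpv⟩ := h2
    refine ⟨p, ?_, hpv⟩
    rw [Finset.mem_filter, Multiset.mem_toFinset]
    refine ⟨hp, ?_⟩
    by_contra hlt
    have h0 : p.totalDegree = 0 := by omega
    rw [totalDegree_eq_zero_iff_eq_C] at h0
    rw [h0, eval_C] at hpv
    exact (hirr p hp).ne_zero (by rw [h0, hpv, C_0])

end Pool.Agent.WB
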